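import Mathlib

/-! Schatten norms of real square matrices and approximation numbers. -/

set_option autoImplicit false

namespace Pool.Agent.H952Z.Sch

/-- The Schatten `p`-norm (`p` a positive real) of a real `N × N` matrix: the `ℓ_p`-norm of its
`N` singular values (those of the linear map it defines on Euclidean `N`-space). -/
noncomputable def schatten {N : ℕ} (p : ℝ) (A : Matrix (Fin N) (Fin N) ℝ) : ℝ :=
  (∑ j : Fin N, (Matrix.toEuclideanLin A).singularValues j ^ p) ^ (1 / p)

/-- The operator norm of a linear map `T : S_p^N → S_q^N`, in `[0, ∞]`: the supremum of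
`‖T A‖_{S_q}` over the matrices `A` with `‖A‖_{S_p} ≤ 1`. -/
noncomputable def opNorm {N : ℕ} (p q : ℝ)
    (T : Matrix (Fin N) (Fin N) ℝ →ₗ[ℝ] Matrix (Fin N) (Fin N) ℝ) : ENNReal :=
  ⨆ (A : Matrix (Fin N) (Fin N) ℝ) (_ : schatten p A ≤ 1), ENNReal.ofReal (schatten q (T A))

/-- The `n`-th approximation number of `T : S_p^N → S_q^N`, in `[0, ∞]`: the infimum of
`‖T - S‖` over the linear maps `S` of rank less than `n`. -/
noncomputable def approxNumber {N : ℕ} (p q : ℝ) (n : ℕ)
    (T : Matrix (Fin N) (Fin N) ℝ →ₗ[ℝ] Matrix (Fin N) (Fin N) ℝ) : ENNReal :=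
  ⨅ (S : Matrix (Fin N) (Fin N) ℝ →ₗ[ℝ] Matrix (Fin N) (Fin N) ℝ)
    (_ : Module.finrank ℝ (LinearMap.range S) < n), opNorm p q (T - S)

end Pool.Agent.H952Z.Sch
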