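import Pool.Agent.H952Z.Sch.Mat

/-! The bound for the approximation numbers. -/

set_option autoImplicit false

namespace Pool.Agent.H952Z.Sch

open Finset

lemma comb {N k : ℕ} (σ a : Fin N → ℝ) (B : ℝ) (hB : 0 ≤ B) (hσ : ∀ j, 0 ≤ σ j)
    (h2 : ∑ j, σ j ^ 2 ≤ 1) (h1 : (∑ j, σ j) ^ 2 ≤ k) (hk : 1 ≤ k)
    (h : ∀ J : Finset (Fin N), J.card ≤ k → ∑ j ∈ J, a j ^ 2 ≤ B ^ 2) :
    |∑ j, σ j * a j| ≤ 2 * B := by
  obtain ⟨J, hJ1, hJ2⟩ := thresh a B h hk
  have hk' : (0 : ℝ) < k := by exact_mod_cast hk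
  rw [← Finset.sum_add_sum_compl J]
  refine (abs_add_le _ _).trans ?_
  have e1 : |∑ j ∈ J, σ j * a j| ≤ B := by
    apply abs_le_of_sq_le_sq _ hB
    refine (Finset.sum_mul_sq_le_sq_mul_sq J σ a).trans ?_
    have : ∑ j ∈ J, σ j ^ 2 ≤ 1 :=
      (Finset.sum_le_sum_of_subset_of_nonneg (Finset.subset_univ J)
        fun _ _ _ => sq_nonneg _).trans h2
    have h3 : 0 ≤ ∑ j ∈ J, a j ^ 2 := Finset.sum_nonneg fun _ _ => sq_nonneg _
    nlinarith
  have e2 : |∑ j ∈ Jᶜ, σ j * a j| ≤ B := by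
    have hs : 0 < Real.sqrt k := Real.sqrt_pos.2 hk'
    have h4 : ∀ j ∈ Jᶜ, |σ j * a j| ≤ σ j * (B / Real.sqrt k) := by
      intro j hj
      rw [abs_mul, abs_of_nonneg (hσ j)]
      refine mul_le_mul_of_nonneg_left ?_ (hσ j)
      apply abs_le_of_sq_le_sq _ (by positivity)
      rw [div_pow, Real.sq_sqrt hk'.le, le_div_iff₀ hk']
      have := hJ2 j (Finset.mem_compl.1 hj)
      linarith
    have h5 : ∑ j, σ j ≤ Real.sqrt k := Real.le_sqrt_of_sq_le h1
    calc _ ≤ ∑ j ∈ Jᶜ, σ j * (B / Real.sqrt k) :=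
          (Finset.abs_sum_le_sum_abs _ _).trans (Finset.sum_le_sum h4)
      _ ≤ ∑ j, σ j * (B / Real.sqrt k) :=
          Finset.sum_le_sum_of_subset_of_nonneg (Finset.subset_univ _)
            fun j _ _ => mul_nonneg (hσ j) (by positivity)
      _ = (∑ j, σ j) * (B / Real.sqrt k) := by rw [Finset.sum_mul]
      _ ≤ Real.sqrt k * (B / Real.sqrt k) := by gcongr
      _ = B := by field_simp
  linarith

lemma outp {N k : ℕ} (a : Fin N → ℝ) (B q : ℝ) (hB : 0 < B) (ha : ∀ j, 0 ≤ a j) (hq : 2 ≤ q)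
    (hk : 1 ≤ k) (hN : (N : ℝ) ^ (2 / q) ≤ k)
    (h : ∀ J : Finset (Fin N), J.card ≤ k → ∑ j ∈ J, a j ^ 2 ≤ B ^ 2) :
    (∑ j, a j ^ q) ^ (1 / q) ≤ 2 * B := by
  obtain ⟨J, hJ1, hJ2⟩ := thresh a B h hk
  have hk' : (0 : ℝ) < k := by exact_mod_cast hk
  have hq0 : 0 < q := by linarith
  have e0 : ∀ j, a j ^ q = B ^ q * (a j ^ 2 / B ^ 2) ^ (q / 2) := by
    intro j
    have := ha j
    rw [← div_pow, ← Real.rpow_natCast, ← Real.rpow_mul (by positivity), Real.div_rpow this hB.le]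
    have : ((2 : ℕ) : ℝ) * (q / 2) = q := by push_cast; ring
    rw [this]
    field_simp
  have e1 : ∑ j ∈ J, (a j ^ 2 / B ^ 2) ^ (q / 2) ≤ 1 := by
    calc _ ≤ ∑ j ∈ J, a j ^ 2 / B ^ 2 := by
          refine Finset.sum_le_sum fun j hj => ?_
          have h3 : a j ^ 2 ≤ B ^ 2 :=
            (Finset.single_le_sum (f := fun j => a j ^ 2) (fun _ _ => sq_nonneg _) hj).trans hJ1
          have h4 : a j ^ 2 / B ^ 2 ≤ 1 := by rw [div_le_one (by positivity)]; exact h3
          have := Real.rpow_le_rpow_of_exponent_ge' (x := a j ^ 2 / B ^ 2) (y := q / 2) (z := 1)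
            (by positivity) h4 zero_le_one (by linarith)
          rwa [Real.rpow_one] at this
      _ ≤ 1 := by rw [← Finset.sum_div, div_le_one (by positivity)]; exact hJ1
  have e2 : ∑ j ∈ Jᶜ, (a j ^ 2 / B ^ 2) ^ (q / 2) ≤ 1 := by
    have hNk : (N : ℝ) ≤ (k : ℝ) ^ (q / 2) := by
      calc (N : ℝ) = ((N : ℝ) ^ (2 / q)) ^ (q / 2) := by
            rw [← Real.rpow_mul (Nat.cast_nonneg N)]
            have : 2 / q * (q / 2) = 1 := by field_simp
            rw [this, Real.rpow_one]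
        _ ≤ _ := by gcongr
    have hkq : 0 < (k : ℝ) ^ (q / 2) := by positivity
    calc _ ≤ ∑ _j ∈ Jᶜ, ((k : ℝ) ^ (q / 2))⁻¹ := by
          refine Finset.sum_le_sum fun j hj => ?_
          rw [← Real.inv_rpow hk'.le]
          gcongr
          have := hJ2 j (Finset.mem_compl.1 hj)
          rw [div_le_iff₀ (by positivity), inv_mul_eq_div, le_div_iff₀ hk']
          linarith
      _ = (Jᶜ.card : ℝ) * ((k : ℝ) ^ (q / 2))⁻¹ := by rw [Finset.sum_const, nsmul_eq_mul]
      _ ≤ (N : ℝ) * ((k : ℝ) ^ (q / 2))⁻¹ := by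
          gcongr
          simpa using Finset.card_le_univ Jᶜ
      _ ≤ 1 := by rw [← div_eq_mul_inv, div_le_one hkq]; exact hNk
  have e3 : ∑ j, a j ^ q ≤ (2 * B) ^ q := by
    simp_rw [e0]
    rw [← Finset.mul_sum, ← Finset.sum_add_sum_compl J, Real.mul_rpow (by norm_num) hB.le,
      mul_comm]
    gcongr
    have : (2 : ℝ) ^ (1 : ℝ) ≤ 2 ^ q := by gcongr <;> linarith
    rw [Real.rpow_one] at this
    linarith
  calc _ ≤ ((2 * B) ^ q) ^ (1 / q) := by
        gcongr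
        exact Finset.sum_nonneg fun j _ => Real.rpow_nonneg (ha j) _
    _ = 2 * B := by
        rw [← Real.rpow_mul (by positivity), mul_one_div_cancel hq0.ne', Real.rpow_one]

lemma inp {N : ℕ} (σ : Fin N → ℝ) (hσ : ∀ j, 0 ≤ σ j) (p : ℝ) (hp1 : 1 ≤ p) (hp2 : p ≤ 2)
    (h : (∑ j, σ j ^ p) ^ (1 / p) ≤ 1) :
    ∑ j, σ j ^ 2 ≤ 1 ∧ (∑ j, σ j) ^ 2 ≤ (N : ℝ) ^ (2 - 2 / p) := by
  have hp0 : 0 < p := by linarith
  have h1 : ∑ j, σ j ^ p ≤ 1 := by
    by_contra hc
    push Not at hc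
    have := Real.one_lt_rpow hc (z := 1 / p) (by positivity)
    linarith
  constructor
  · refine le_trans (Finset.sum_le_sum fun j _ => ?_) h1
    have h2 : σ j ^ p ≤ 1 := (Finset.single_le_sum (f := fun j => σ j ^ p)
      (fun j _ => Real.rpow_nonneg (hσ j) _) (Finset.mem_univ j)).trans h1
    have h3 : σ j ≤ 1 := by
      by_contra hc
      push Not at hc
      have := Real.one_lt_rpow hc hp0
      linarith
    have := Real.rpow_le_rpow_of_exponent_ge' (x := σ j) (y := 2) (z := p) (hσ j) h3 hp0.le hp2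
    rwa [Real.rpow_two] at this
  · have h2 := Real.rpow_sum_le_const_mul_sum_rpow_of_nonneg Finset.univ hp1
      (f := σ) (fun j _ => hσ j)
    simp only [Finset.card_univ, Fintype.card_fin] at h2
    have h3 : (∑ j, σ j) ^ p ≤ (N : ℝ) ^ (p - 1) :=
      h2.trans (mul_le_of_le_one_right (by positivity) h1)
    have h4 : 0 ≤ ∑ j, σ j := Finset.sum_nonneg fun j _ => hσ j
    calc (∑ j, σ j) ^ 2 = ((∑ j, σ j) ^ p) ^ (2 / p) := by
          rw [← Real.rpow_mul h4, ← Real.rpow_two]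
          congr 1
          field_simp
      _ ≤ ((N : ℝ) ^ (p - 1)) ^ (2 / p) := by gcongr
      _ = _ := by
          rw [← Real.rpow_mul (Nat.cast_nonneg N)]
          congr 1
          field_simp

lemma norm_bound {N k : ℕ} (hk1 : 1 ≤ k) (hk : k ≤ N) (p q : ℝ) (hp1 : 1 ≤ p) (hp2 : p ≤ 2)
    (hq : 2 ≤ q) (hkp : (N : ℝ) ^ (2 - 2 / p) ≤ k) (hkq : (N : ℝ) ^ (2 / q) ≤ k)
    (S : HS N N →ₗ[ℝ] HS N N) (B : ℝ) (hB : 0 < B)
    (hS : ∀ u w u' w', |inner ℝ (pr N k u w - S (pr N k u w)) (pr N k u' w')|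
        ≤ B * ‖u‖ * ‖w‖ * ‖u'‖ * ‖w'‖) :
    opNorm p q (LinearMap.id - (phi N).symm.toLinearMap ∘ₗ S ∘ₗ (phi N).toLinearMap)
      ≤ ENNReal.ofReal (4 * B) := by
  refine iSup₂_le fun A hA => ENNReal.ofReal_le_ofReal ?_
  let β : HS N N →ₗ[ℝ] HS N N →ₗ[ℝ] ℝ := (innerₗ (HS N N)).comp (LinearMap.id - S)
  have hβ : ∀ x y, β x y = inner ℝ (x - S x) y := fun x y => by simp [β, inner_sub_left]
  obtain ⟨u, v, hu, hv, hA1, -⟩ := svd A
  obtain ⟨i2, i1⟩ := inp (fun j : Fin N => (Matrix.toEuclideanLin A).singularValues j)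
    (fun j => LinearMap.singularValues_nonneg _ _) p hp1 hp2 hA
  have h1 : ∀ u' w', |β (phi N A) (pr N k u' w')| ≤ 2 * B * ‖u'‖ * ‖w'‖ := by
    intro u' w'
    have h2 := comb (k := k) (fun j : Fin N => (Matrix.toEuclideanLin A).singularValues j)
      (fun j => β.flip (pr N k u' w') (tens (u j) (v j))) (B * ‖u'‖ * ‖w'‖) (by positivity)
      (fun j => LinearMap.singularValues_nonneg _ _) i2 (i1.trans hkp) hk1
      (sparse hk (β.flip (pr N k u' w')) _ (by positivity) (fun U W => by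
        rw [LinearMap.flip_apply, hβ]
        exact (hS U W u' w').trans (le_of_eq (by ring))) u v hu hv)
    rw [hA1, map_sum, LinearMap.sum_apply]
    simp only [map_smul, LinearMap.smul_apply, smul_eq_mul, LinearMap.flip_apply] at h2 ⊢
    exact h2.trans (le_of_eq (by ring))
  set A' := (LinearMap.id - (phi N).symm.toLinearMap ∘ₗ S ∘ₗ (phi N).toLinearMap :
    Matrix (Fin N) (Fin N) ℝ →ₗ[ℝ] Matrix (Fin N) (Fin N) ℝ) A with hA'
  have hphi : phi N A' = phi N A - S (phi N A) := by simp [hA']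
  obtain ⟨u', v', hu', hv', -, hA2⟩ := svd A'
  have h3 := outp (k := k) (fun j : Fin N => (Matrix.toEuclideanLin A').singularValues j) (2 * B) q
    (by positivity) (fun j => LinearMap.singularValues_nonneg _ _) hq hk1 hkq (fun J hJ => by
      have := sparse hk (β (phi N A)) (2 * B) (by positivity) h1 u' v' hu' hv' J hJ
      simp only [hβ, ← hphi, hA2] at this
      exact this)
  exact h3.trans (le_of_eq (by ring))

lemma rank_conj {N : ℕ} (S : HS N N →ₗ[ℝ] HS N N) :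
    Module.finrank ℝ (LinearMap.range ((phi N).symm.toLinearMap ∘ₗ S ∘ₗ (phi N).toLinearMap))
      ≤ Module.finrank ℝ (LinearMap.range S) := by
  rw [LinearMap.range_comp, LinearEquiv.finrank_map_eq]
  exact Submodule.finrank_mono (LinearMap.range_comp_le_range _ _)

theorem main (c : ℝ) (hc0 : 0 < c) (hc1 : c < 1) :
    ∃ C : ℝ, 0 < C ∧ ∀ p q : ℝ, 1 ≤ p → p ≤ 2 → 2 ≤ q → ∀ N n : ℕ, 1 ≤ N →
      (1 - c) * (N : ℝ) ^ 2 ≤ n →
      (n : ℝ) ≤ (N : ℝ) ^ 2 - c * (N : ℝ) ^ (max (3 - 2 / p) (1 + 2 / q)) + 1 →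
      approxNumber p q n (LinearMap.id : Matrix (Fin N) (Fin N) ℝ →ₗ[ℝ] _) ≤
        ENNReal.ofReal (C * (N : ℝ) ^ (max (3 - 2 / p) (1 + 2 / q) / 2 - 2)
          * Real.sqrt ((N : ℝ) ^ 2 - n + 1)) := by
  have hc2 : 0 < 1 - c := by linarith
  have hsc : 0 < Real.sqrt c := Real.sqrt_pos.2 hc0
  set C1 : ℝ := 128 / (1 - c) ^ 2 * (160 / Real.sqrt c + 576) with hC1
  set C2 : ℝ := 2 / (1 - c) with hC2
  refine ⟨4 * (C1 + C2), by positivity, ?_⟩
  intro p q hp1 hp2 hq N n hN hn1 hn2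
  set lam := max (3 - 2 / p) (1 + 2 / q) with hlam
  have hN' : (1 : ℝ) ≤ N := by exact_mod_cast hN
  have hp0 : 0 < p := by linarith
  have hq0 : 0 < q := by linarith
  have hl1 : 1 ≤ lam := le_trans (by have : 0 < 2 / q := by positivity
                                     linarith) (le_max_right _ _)
  have hl2 : lam ≤ 2 := by
    apply max_le
    · have : 1 ≤ 2 / p := by rw [le_div_iff₀ hp0]; linarith
      linarith
    · have : 2 / q ≤ 1 := by rw [div_le_one hq0]; exact hq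
      linarith
  set Λ : ℝ := (N : ℝ) ^ lam with hΛ
  have hΛ1 : 1 ≤ Λ := Real.one_le_rpow hN' (by linarith)
  set k : ℕ := ⌈(N : ℝ) ^ (lam - 1)⌉₊ with hk
  have hκ1 : 1 ≤ (N : ℝ) ^ (lam - 1) := Real.one_le_rpow hN' (by linarith)
  have hkge : (N : ℝ) ^ (lam - 1) ≤ k := Nat.le_ceil _
  have hk1 : 1 ≤ k := by
    have : (1 : ℝ) ≤ k := hκ1.trans hkge
    exact_mod_cast this
  have hkN : k ≤ N := by
    rw [hk, Nat.ceil_le]
    have := Real.rpow_le_rpow_of_exponent_le hN' (y := lam - 1) (z := 1) (by linarith)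
    rwa [Real.rpow_one] at this
  have hkle : (N : ℝ) * k ≤ 2 * Λ := by
    have h1 : (k : ℝ) < (N : ℝ) ^ (lam - 1) + 1 := Nat.ceil_lt_add_one (by positivity)
    have h2 : Λ = N * (N : ℝ) ^ (lam - 1) := by
      rw [hΛ, Real.rpow_sub_one (by positivity)]; field_simp
    rw [h2]
    nlinarith
  have hkp : (N : ℝ) ^ (2 - 2 / p) ≤ k := by
    refine le_trans (Real.rpow_le_rpow_of_exponent_le hN' ?_) hkge
    have := le_max_left (3 - 2 / p) (1 + 2 / q)
    linarith
  have hkq : (N : ℝ) ^ (2 / q) ≤ k := by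
    refine le_trans (Real.rpow_le_rpow_of_exponent_le hN' ?_) hkge
    have := le_max_right (3 - 2 / p) (1 + 2 / q)
    linarith
  set D : ℝ := (N : ℝ) ^ 2 with hD
  have hD1 : 1 ≤ D := one_le_pow₀ hN'
  have hn0 : 1 ≤ n := by
    have : (0 : ℝ) < n := lt_of_lt_of_le (by positivity) hn1
    exact_mod_cast this
  have hnN : n ≤ N * N := by
    have h1 : 0 < c * Λ := by positivity
    have : (n : ℝ) < ((N * N + 1 : ℕ) : ℝ) := by push_cast; nlinarith
    have : n < N * N + 1 := by exact_mod_cast this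
    omega
  obtain ⟨d, rfl⟩ : ∃ d, n = d + 1 := ⟨n - 1, by omega⟩
  obtain ⟨m, hm⟩ : ∃ m, N * N = d + m := ⟨N * N - d, by omega⟩
  have hm1 : 1 ≤ m := by omega
  have hm1' : (1 : ℝ) ≤ m := by exact_mod_cast hm1
  have hDm : D = d + m := by rw [hD, sq]; exact_mod_cast hm
  push_cast at hn1 hn2 ⊢
  have hmm : D - (d + 1) + 1 = m := by linarith
  have hmΛ : c * Λ ≤ m := by linarith
  have hpow : (N : ℝ) ^ (lam / 2 - 2) = Real.sqrt Λ / D := by
    rw [Real.rpow_sub (by positivity), Real.sqrt_eq_rpow, hΛ, ← Real.rpow_mul (by positivity),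
      Real.rpow_two]
    congr 2
    ring
  rw [hmm, hpow]
  have hsΛ : 1 ≤ Real.sqrt Λ := Real.one_le_sqrt.2 hΛ1
  have hsm : 1 ≤ Real.sqrt m := Real.one_le_sqrt.2 hm1'
  have key : ∃ S : HS N N →ₗ[ℝ] HS N N, Module.finrank ℝ (LinearMap.range S) ≤ d ∧
      ∀ u w u' w', |inner ℝ (pr N k u w - S (pr N k u w)) (pr N k u' w')|
        ≤ ((C1 + C2) * (Real.sqrt Λ / D) * Real.sqrt m) * ‖u‖ * ‖w‖ * ‖u'‖ * ‖w'‖ := by
    by_cases hsmall : (1 - c) * D < 2
    · refine ⟨0, by rw [LinearMap.range_zero, finrank_bot]; exact Nat.zero_le _,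
        fun u w u' w' => ?_⟩
      have h1 : 1 ≤ (C1 + C2) * (Real.sqrt Λ / D) * Real.sqrt m := by
        have h2 : 1 ≤ C2 * (1 / D) := by
          rw [hC2, mul_one_div, div_div, le_div_iff₀ (by positivity)]; linarith
        calc (1 : ℝ) ≤ C2 * (1 / D) * 1 := by linarith
          _ ≤ (C1 + C2) * (Real.sqrt Λ / D) * Real.sqrt m := by
              gcongr
              have : 0 < C1 := by positivity
              linarith
      rw [LinearMap.zero_apply, sub_zero]
      calc _ ≤ ‖pr N k u w‖ * ‖pr N k u' w'‖ := abs_real_inner_le_norm _ _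
        _ ≤ (‖u‖ * ‖w‖) * (‖u'‖ * ‖w'‖) := by gcongr <;> exact pr_norm _ _
        _ = 1 * ‖u‖ * ‖w‖ * ‖u'‖ * ‖w'‖ := by ring
        _ ≤ _ := by gcongr
    · push Not at hsmall
      have hd2 : (1 - c) * D / 2 ≤ d := by linarith
      have hd1 : 1 ≤ d := by
        have : (1 : ℝ) ≤ d := by linarith
        exact_mod_cast this
      set r : ℝ := Real.sqrt c * Real.sqrt Λ / Real.sqrt m with hr
      have hr0 : 0 < r := by positivity
      have hr1 : r ≤ 1 := by
        rw [hr, div_le_one (by positivity), ← Real.sqrt_mul hc0.le]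
        exact Real.sqrt_le_sqrt hmΛ
      obtain ⟨S, hS1, hS2⟩ := rip (pr N k) pr_norm hd1 (m := m) (by simpa using hm) (r / 8)
        (by positivity) (by linarith) (20 * Λ) (by
          have e1 : Module.finrank ℝ (HS N k) = N * k := by simp
          have e2 : Module.finrank ℝ (V k →L[ℝ] V N) = k * N := by
            rw [← LinearEquiv.finrank_eq (LinearMap.toContinuousLinearMap :
              (V k →ₗ[ℝ] V N) ≃ₗ[ℝ] (V k →L[ℝ] V N)), Module.finrank_linearMap]
            simp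
          rw [e1, e2]
          push_cast
          nlinarith)
      refine ⟨S, hS1, fun u w u' w' => (hS2 u w u' w').trans ?_⟩
      have e3 : 20 * Λ / (r / 8) + 4608 * (r / 8) * m
          ≤ (160 / Real.sqrt c + 576) * (Real.sqrt Λ * Real.sqrt m) := by
        have a1 : Λ = Real.sqrt Λ * Real.sqrt Λ := (Real.mul_self_sqrt (by linarith)).symm
        have a2 : (m : ℝ) = Real.sqrt m * Real.sqrt m := (Real.mul_self_sqrt (by linarith)).symm
        have a3 : Real.sqrt c ≤ 1 := Real.sqrt_le_one.2 hc1.le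
        have b1 : 20 * Λ / (r / 8) = 160 / Real.sqrt c * (Real.sqrt Λ * Real.sqrt m) := by
          rw [hr]
          generalize Real.sqrt Λ = x at *
          rw [a1]
          field_simp
          ring
        have b2 : 4608 * (r / 8) * m = 576 * Real.sqrt c * (Real.sqrt Λ * Real.sqrt m) := by
          rw [hr]
          generalize Real.sqrt (m : ℝ) = x at *
          rw [a2]
          field_simp
          ring
        rw [b1, b2, add_mul]
        gcongr
        linarith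
      have e4 : 32 * ((d : ℝ) + m) * ((20 * Λ / (r / 8) + 4608 * (r / 8) * m) / d ^ 2)
          ≤ (C1 + C2) * (Real.sqrt Λ / D) * Real.sqrt m := by
        rw [← hDm]
        calc _ ≤ 32 * D * (((160 / Real.sqrt c + 576) * (Real.sqrt Λ * Real.sqrt m))
              / ((1 - c) * D / 2) ^ 2) := by gcongr
          _ = C1 * (Real.sqrt Λ / D) * Real.sqrt m := by
              rw [hC1]; field_simp; ring
          _ ≤ _ := by
              gcongr
              have : 0 < C2 := by positivity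
              linarith
      exact mul_le_mul_of_nonneg_right (mul_le_mul_of_nonneg_right (mul_le_mul_of_nonneg_right
        (mul_le_mul_of_nonneg_right e4 (norm_nonneg _)) (norm_nonneg _)) (norm_nonneg _))
        (norm_nonneg _)
  obtain ⟨S, hS1, hS2⟩ := key
  have hfin := norm_bound hk1 hkN p q hp1 hp2 hq hkp hkq S _ (by positivity) hS2
  refine le_trans (iInf₂_le ((phi N).symm.toLinearMap ∘ₗ S ∘ₗ (phi N).toLinearMap)
    (Nat.lt_succ_of_le ((rank_conj S).trans hS1))) (hfin.trans (le_of_eq ?_))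
  congr 1
  ring

end Pool.Agent.H952Z.Sch
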