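import Pool.Agent.H952Z.Sch.Net
import Pool.Agent.H952Z.Sch.Defs

/-! Matrices, singular value decomposition and low rank test matrices. -/

set_option autoImplicit false

namespace Pool.Agent.H952Z.Sch

open Finset

abbrev V (N : ℕ) : Type := EuclideanSpace ℝ (Fin N)

abbrev HS (N k : ℕ) : Type := EuclideanSpace ℝ (Fin N × Fin k)

noncomputable def phi (N : ℕ) : Matrix (Fin N) (Fin N) ℝ ≃ₗ[ℝ] HS N N where
  toFun A := WithLp.toLp 2 (fun ij => A ij.1 ij.2)
  invFun x := Matrix.of fun i j => x (i, j)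
  map_add' A B := by ext ij; simp
  map_smul' c A := by ext ij; simp
  left_inv A := by ext i j; simp
  right_inv x := by ext ij; simp

noncomputable def tens {N : ℕ} (u v : V N) : HS N N := WithLp.toLp 2 fun ij => u ij.1 * v ij.2

noncomputable def row {N k : ℕ} (U : HS N k) (i : Fin N) : V k := WithLp.toLp 2 fun l => U (i, l)

noncomputable def pr (N k : ℕ) : HS N k →ₗ[ℝ] (V k →L[ℝ] V N) →ₗ[ℝ] HS N N :=
  LinearMap.mk₂ ℝ (fun U W => WithLp.toLp 2 fun ij => W (row U ij.1) ij.2)
    (fun U U' W => by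
      ext ij
      have : row (U + U') ij.1 = row U ij.1 + row U' ij.1 := by ext l; simp [row]
      simp [this])
    (fun c U W => by
      ext ij
      have : row (c • U) ij.1 = c • row U ij.1 := by ext l; simp [row]
      simp [this])
    (fun U W W' => by ext ij; simp)
    (fun c U W => by ext ij; simp)

lemma pr_apply {N k : ℕ} (U : HS N k) (W : V k →L[ℝ] V N) (ij : Fin N × Fin N) :
    pr N k U W ij = W (row U ij.1) ij.2 := rfl

lemma pr_norm {N k : ℕ} (U : HS N k) (W : V k →L[ℝ] V N) : ‖pr N k U W‖ ≤ ‖U‖ * ‖W‖ := by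
  apply le_of_sq_le_sq _ (by positivity)
  rw [EuclideanSpace.real_norm_sq_eq, mul_pow, EuclideanSpace.real_norm_sq_eq,
    Fintype.sum_prod_type, Fintype.sum_prod_type, Finset.sum_mul]
  refine Finset.sum_le_sum fun i _ => ?_
  simp only [pr_apply]
  rw [← EuclideanSpace.real_norm_sq_eq]
  have h1 : ∑ l, U (i, l) ^ 2 = ‖row U i‖ ^ 2 := by
    rw [EuclideanSpace.real_norm_sq_eq]; rfl
  rw [h1, ← mul_pow, mul_comm]
  gcongr
  exact W.le_opNorm _

lemma sparse {N k : ℕ} (hk : k ≤ N) (l : HS N N →ₗ[ℝ] ℝ) (B : ℝ) (hB0 : 0 ≤ B)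
    (hB : ∀ U W, |l (pr N k U W)| ≤ B * ‖U‖ * ‖W‖) (u v : Fin N → V N) (hu : ∀ j, ‖u j‖ ≤ 1)
    (hv : Orthonormal ℝ v) (J : Finset (Fin N)) (hJ : J.card ≤ k) :
    ∑ j ∈ J, l (tens (u j) (v j)) ^ 2 ≤ B ^ 2 := by
  obtain ⟨J', hJJ', hJ'⟩ := Finset.exists_superset_card_eq hJ (by simpa using hk)
  set a : Fin N → ℝ := fun j => l (tens (u j) (v j)) with ha
  let e := J'.orderEmbOfFin hJ'
  have hsum : ∑ j ∈ J', a j ^ 2 = ∑ i : Fin k, a (e i) ^ 2 := by
    conv_lhs => rw [← Finset.map_orderEmbOfFin_univ J' hJ']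
    rw [Finset.sum_map]
    rfl
  let U : HS N k := WithLp.toLp 2 fun il => a (e il.2) * u (e il.2) il.1
  let W : V k →L[ℝ] V N := ∑ i : Fin k, (EuclideanSpace.proj i : V k →L[ℝ] ℝ).smulRight (v (e i))
  have hWx : ∀ x, W x = ∑ i, x i • v (e i) := by
    intro x; simp [W]
  have hW : ‖W‖ ≤ 1 := by
    apply ContinuousLinearMap.opNorm_le_bound _ zero_le_one
    intro x
    apply le_of_sq_le_sq _ (by positivity)
    have hv' : Orthonormal ℝ (v ∘ e) := hv.comp e e.injective
    have := hv'.inner_sum (fun i => x i) (fun i => x i) Finset.univ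
    rw [one_mul, ← real_inner_self_eq_norm_sq, hWx, EuclideanSpace.real_norm_sq_eq]
    simp only [Function.comp_apply, conj_trivial] at this
    rw [this]
    exact le_of_eq (Finset.sum_congr rfl fun i _ => by ring)
  have hU : ‖U‖ ^ 2 ≤ ∑ i : Fin k, a (e i) ^ 2 := by
    rw [EuclideanSpace.real_norm_sq_eq, Fintype.sum_prod_type_right]
    refine Finset.sum_le_sum fun i _ => ?_
    simp only [U, mul_pow]
    rw [← Finset.mul_sum, ← EuclideanSpace.real_norm_sq_eq]
    have h1 := hu (e i)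
    have h2 : ‖u (e i)‖ ^ 2 ≤ 1 := by
      have := norm_nonneg (u (e i))
      nlinarith
    nlinarith [sq_nonneg (a (e i))]
  have hpr : pr N k U W = ∑ i, a (e i) • tens (u (e i)) (v (e i)) := by
    ext ij
    rw [pr_apply, hWx]
    simp [row, U, tens, mul_assoc]
  have h1 := hB U W
  rw [hpr, map_sum] at h1
  simp only [map_smul, smul_eq_mul] at h1
  set A := ∑ i : Fin k, a (e i) ^ 2 with hA
  have hA0 : 0 ≤ A := Finset.sum_nonneg fun _ _ => sq_nonneg _
  have h2 : A ≤ B * ‖U‖ := by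
    have h3 : ∑ i, a (e i) * l (tens (u (e i)) (v (e i))) = A :=
      Finset.sum_congr rfl fun i _ => by rw [sq]
    rw [h3, abs_of_nonneg hA0] at h1
    refine h1.trans ?_
    have : 0 ≤ B * ‖U‖ := by positivity
    nlinarith
  have h4 : A ≤ B ^ 2 := by
    rcases hA0.eq_or_lt with h | h
    · rw [← h]; positivity
    · have h5 : A * A ≤ B ^ 2 * A := by
        calc A * A ≤ (B * ‖U‖) * (B * ‖U‖) := by gcongr
          _ = B ^ 2 * ‖U‖ ^ 2 := by ring
          _ ≤ _ := by gcongr
      exact le_of_mul_le_mul_right h5 h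
  calc ∑ j ∈ J, a j ^ 2 ≤ ∑ j ∈ J', a j ^ 2 :=
        Finset.sum_le_sum_of_subset_of_nonneg hJJ' fun _ _ _ => sq_nonneg _
    _ ≤ _ := by rw [hsum]; exact h4

lemma svd {N : ℕ} (A : Matrix (Fin N) (Fin N) ℝ) :
    ∃ u v : Fin N → V N, (∀ j, ‖u j‖ ≤ 1) ∧ Orthonormal ℝ v ∧
      phi N A = ∑ j : Fin N, (Matrix.toEuclideanLin A).singularValues j • tens (u j) (v j) ∧
      ∀ j : Fin N, inner ℝ (phi N A) (tens (u j) (v j))
        = (Matrix.toEuclideanLin A).singularValues j := by
  set L := Matrix.toEuclideanLin A with hL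
  have hn : Module.finrank ℝ (V N) = N := by simp
  let b := L.isSymmetric_adjoint_comp_self.eigenvectorBasis hn
  have hb : ∀ j : Fin N, ‖L (b j)‖ = L.singularValues j := by
    intro j
    have h1 := L.isSymmetric_adjoint_comp_self.apply_eigenvectorBasis hn j
    have h2 : ‖L (b j)‖ ^ 2 = L.singularValues j ^ 2 := by
      rw [L.sq_singularValues_fin hn j, ← real_inner_self_eq_norm_sq,
        ← LinearMap.adjoint_inner_left]
      have : LinearMap.adjoint L (L (b j)) = _ := h1
      rw [this, inner_smul_left, real_inner_self_eq_norm_sq, b.orthonormal.1 j]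
      simp
    exact (sq_eq_sq₀ (norm_nonneg _) (L.singularValues_nonneg _)).1 h2
  let u : Fin N → V N := fun j => (L.singularValues j)⁻¹ • L (b j)
  have hu : ∀ j : Fin N, L.singularValues j • u j = L (b j) := by
    intro j
    by_cases h : L.singularValues j = 0
    · have := hb j
      rw [h, norm_eq_zero] at this
      rw [h, zero_smul, this]
    · simp only [u, smul_smul, mul_inv_cancel₀ h, one_smul]
  have hin : ∀ x y : V N, inner ℝ (phi N A) (tens x y) = inner ℝ x (L y) := by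
    intro x y
    simp only [PiLp.inner_apply, Fintype.sum_prod_type, hL, Matrix.toLpLin_apply,
      Matrix.mulVec, dotProduct, phi, tens]
    simp only [LinearEquiv.coe_mk, LinearMap.coe_mk, AddHom.coe_mk, RCLike.inner_apply,
      conj_trivial, Finset.sum_mul]
    refine Finset.sum_congr rfl fun i _ => Finset.sum_congr rfl fun j _ => by ring
  refine ⟨u, b, ?_, b.orthonormal, ?_, ?_⟩
  · intro j
    simp only [u, norm_smul, hb, Real.norm_eq_abs, abs_inv,
      abs_of_nonneg (L.singularValues_nonneg _)]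
    exact inv_mul_le_one_of_le₀ le_rfl (L.singularValues_nonneg _)
  · ext ij
    have h1 : ∀ j : Fin N, (L.singularValues j • tens (u j) (b j)) ij
        = (L ((inner ℝ (b j) (EuclideanSpace.single ij.2 (1 : ℝ))) • b j)) ij.1 := by
      intro j
      rw [map_smul, ← hu j]
      simp [tens, EuclideanSpace.inner_single_right]
      ring
    rw [WithLp.ofLp_sum, Finset.sum_apply]
    simp_rw [h1]
    rw [← Finset.sum_apply, ← WithLp.ofLp_sum, ← map_sum, b.sum_repr']
    simp [phi, hL, Matrix.toLpLin_apply]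
  · intro j
    rw [hin]
    simp only [u, inner_smul_left, real_inner_self_eq_norm_sq, hb, conj_trivial]
    by_cases h : L.singularValues j = 0
    · simp [h]
    · field_simp

lemma thresh {N k : ℕ} (a : Fin N → ℝ) (B : ℝ)
    (h : ∀ J : Finset (Fin N), J.card ≤ k → ∑ j ∈ J, a j ^ 2 ≤ B ^ 2) (hk : 1 ≤ k) :
    ∃ J : Finset (Fin N), ∑ j ∈ J, a j ^ 2 ≤ B ^ 2 ∧ ∀ j, j ∉ J → k * a j ^ 2 ≤ B ^ 2 := by
  let J : Finset (Fin N) := Finset.univ.filter fun j => B ^ 2 < k * a j ^ 2
  refine ⟨J, h J ?_, fun j hj => by simpa [J] using hj⟩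
  by_contra hc
  push Not at hc
  obtain ⟨J', hJ', hcard⟩ := Finset.exists_subset_card_eq hc.le
  have h1 := h J' hcard.le
  have hne : J'.Nonempty := by rw [← Finset.card_pos]; omega
  have h2 : ∑ _j ∈ J', B ^ 2 < ∑ j ∈ J', k * a j ^ 2 :=
    Finset.sum_lt_sum_of_nonempty hne fun j hj => by simpa [J] using hJ' hj
  rw [Finset.sum_const, hcard, nsmul_eq_mul, ← Finset.mul_sum] at h2
  have hk' : (0 : ℝ) < k := by exact_mod_cast hk
  have := lt_of_mul_lt_mul_left h2 hk'.le
  linarith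

end Pool.Agent.H952Z.Sch
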