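import Pool.Agent.H952Z.Sch.Pot

/-! Nets and the restricted isometry property for products. -/

set_option autoImplicit false

namespace Pool.Agent.H952Z.Sch

open Finset

lemma exists_net (Y : Type) [NormedAddCommGroup Y] [NormedSpace ℝ Y] [FiniteDimensional ℝ Y] :
    ∃ F : Finset Y, F.card ≤ 5 ^ Module.finrank ℝ Y ∧ (∀ f ∈ F, ‖f‖ ≤ 1) ∧
      ∀ (l : Y →ₗ[ℝ] ℝ) (B : ℝ), (∀ f ∈ F, |l f| ≤ B) → ∀ x, |l x| ≤ 2 * B * ‖x‖ := by
  classical
  let P : ℕ → Prop := fun n => ∃ s : Finset Y, s.card = n ∧ (∀ c ∈ s, ‖c‖ ≤ 2) ∧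
    ∀ c ∈ s, ∀ d ∈ s, c ≠ d → 1 ≤ ‖c - d‖
  have hP0 : P 0 := ⟨∅, by simp⟩
  have hPb : ∀ n, P n → n ≤ 5 ^ Module.finrank ℝ Y := by
    rintro n ⟨s, rfl, h1, h2⟩
    exact Besicovitch.card_le_of_separated s h1 h2
  obtain ⟨s, hs, h1, h2⟩ : P (Nat.findGreatest P (5 ^ Module.finrank ℝ Y)) :=
    Nat.findGreatest_spec (Nat.zero_le _) hP0
  have hmax : ∀ x : Y, ‖x‖ ≤ 2 → ∃ c ∈ s, ‖x - c‖ < 1 := by
    intro x hx
    by_contra hcon
    push Not at hcon
    have hxs : x ∉ s := fun h => by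
      have := hcon x h
      simp at this
      linarith
    have hP : P (s.card + 1) := by
      refine ⟨insert x s, Finset.card_insert_of_notMem hxs, ?_, ?_⟩
      · intro c hc
        rcases Finset.mem_insert.1 hc with rfl | hc
        · exact hx
        · exact h1 c hc
      · intro c hc d hd hcd
        rcases Finset.mem_insert.1 hc with hc' | hc'
        · rcases Finset.mem_insert.1 hd with hd' | hd'
          · exact absurd (hc'.trans hd'.symm) hcd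
          · rw [hc']; exact hcon d hd'
        · rcases Finset.mem_insert.1 hd with hd' | hd'
          · rw [norm_sub_rev, hd']; exact hcon c hc'
          · exact h2 c hc' d hd' hcd
    have := Nat.le_findGreatest (hPb _ hP) hP
    omega
  refine ⟨s.image (fun c => (1 / 2 : ℝ) • c), Finset.card_image_le.trans (hPb _ ⟨s, rfl, h1, h2⟩),
    ?_, ?_⟩
  · intro f hf
    obtain ⟨c, hc, rfl⟩ := Finset.mem_image.1 hf
    rw [norm_smul]
    have := h1 c hc
    norm_num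
    linarith
  · intro l B hB
    have hB' : ∀ c ∈ s, |l c| ≤ 2 * B := by
      intro c hc
      have := hB _ (Finset.mem_image_of_mem (fun c => (1 / 2 : ℝ) • c) hc)
      rw [map_smul, smul_eq_mul, abs_mul] at this
      norm_num at this
      linarith
    have hB0 : 0 ≤ B := by
      obtain ⟨c, hc, -⟩ := hmax 0 (by simp)
      linarith [abs_nonneg (l c), hB' c hc]
    let L : Y →L[ℝ] ℝ := LinearMap.toContinuousLinearMap l
    have hL : ‖L‖ ≤ B + ‖L‖ / 2 := by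
      apply ContinuousLinearMap.opNorm_le_of_unit_norm (by positivity)
      intro x hx
      obtain ⟨c, hc, hxc⟩ := hmax ((2 : ℝ) • x) (by rw [norm_smul, hx]; simp)
      have e1 : L ((2 : ℝ) • x) = L ((2 : ℝ) • x - c) + l c := by
        rw [map_sub]; simp [L]
      have e2 : ‖L ((2 : ℝ) • x - c)‖ ≤ ‖L‖ := by
        refine (L.le_opNorm _).trans ?_
        have := norm_nonneg L
        nlinarith
      have e3 : ‖L ((2 : ℝ) • x)‖ ≤ ‖L‖ + 2 * B := by
        rw [e1]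
        refine (norm_add_le _ _).trans (add_le_add e2 ?_)
        exact hB' c hc
      rw [map_smul, norm_smul] at e3
      norm_num at e3 ⊢
      linarith
    intro x
    have := L.le_opNorm x
    have h3 : ‖L‖ ≤ 2 * B := by linarith
    calc |l x| = ‖L x‖ := rfl
      _ ≤ ‖L‖ * ‖x‖ := this
      _ ≤ _ := by gcongr

theorem rip {H U W : Type} [NormedAddCommGroup H] [InnerProductSpace ℝ H] [FiniteDimensional ℝ H]
    [NormedAddCommGroup U] [NormedSpace ℝ U] [FiniteDimensional ℝ U]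
    [NormedAddCommGroup W] [NormedSpace ℝ W] [FiniteDimensional ℝ W]
    (pr : U →ₗ[ℝ] W →ₗ[ℝ] H) (hpr : ∀ u w, ‖pr u w‖ ≤ ‖u‖ * ‖w‖) {d m : ℕ} (hd : 1 ≤ d)
    (hH : Module.finrank ℝ H = d + m) (s : ℝ) (hs0 : 0 < s) (hs : s ≤ 1 / 8) (L : ℝ)
    (hL : 4 * (Module.finrank ℝ U + Module.finrank ℝ W : ℝ) + 2 ≤ L) :
    ∃ S : H →ₗ[ℝ] H, Module.finrank ℝ (LinearMap.range S) ≤ d ∧ ∀ u w u' w',
      |inner ℝ (pr u w - S (pr u w)) (pr u' w')|
        ≤ 32 * (d + m) * ((L / s + 4608 * s * m) / d ^ 2) * ‖u‖ * ‖w‖ * ‖u'‖ * ‖w'‖ := by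
  classical
  have hd' : (1 : ℝ) ≤ d := by exact_mod_cast hd
  obtain ⟨FU, hU1, hU2, hU3⟩ := exists_net U
  obtain ⟨FW, hW1, hW2, hW3⟩ := exists_net W
  let z : ((U × W) × (U × W)) × Bool → H := fun a =>
    (1 / 2 : ℝ) • (pr a.1.1.1 a.1.1.2 + sg a.2 • pr a.1.2.1 a.1.2.2)
  have hn : ∀ u ∈ FU, ∀ w ∈ FW, ‖pr u w‖ ≤ 1 := fun u hu w hw =>
    (hpr u w).trans (mul_le_one₀ (hU2 u hu) (norm_nonneg _) (hW2 w hw))
  obtain ⟨R, hR⟩ := near_iso hd hH (((FU ×ˢ FW) ×ˢ (FU ×ˢ FW)) ×ˢ (Finset.univ : Finset Bool)) z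
    (by
      rintro ⟨⟨⟨u, w⟩, ⟨u', w'⟩⟩, b⟩ ha
      simp only [Finset.mem_product] at ha
      have h1 := hn u ha.1.1.1 w ha.1.1.2
      have h2 := hn u' ha.1.2.1 w' ha.1.2.2
      have h3 := norm_add_le (pr u w) (sg b • pr u' w')
      rw [norm_smul, Real.norm_eq_abs, abs_sg] at h3
      simp only [z, norm_smul]
      norm_num
      linarith) s hs0 hs L (by
      simp only [Finset.card_product, Finset.card_univ, Fintype.card_bool]
      push_cast
      have e5 : (5 : ℝ) ≤ Real.exp 2 := by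
        have := Real.quadratic_le_exp_of_nonneg (x := 2) (by norm_num)
        linarith
      have h1 : (FU.card : ℝ) ≤ Real.exp (2 * Module.finrank ℝ U) := by
        calc (FU.card : ℝ) ≤ 5 ^ Module.finrank ℝ U := by exact_mod_cast hU1
          _ ≤ Real.exp 2 ^ Module.finrank ℝ U := by gcongr
          _ = _ := by rw [← Real.exp_nat_mul, mul_comm]
      have h2 : (FW.card : ℝ) ≤ Real.exp (2 * Module.finrank ℝ W) := by
        calc (FW.card : ℝ) ≤ 5 ^ Module.finrank ℝ W := by exact_mod_cast hW1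
          _ ≤ Real.exp 2 ^ Module.finrank ℝ W := by gcongr
          _ = _ := by rw [← Real.exp_nat_mul, mul_comm]
      calc _ = 4 * ((FU.card * FW.card) * (FU.card * FW.card) : ℝ) := by ring
        _ ≤ Real.exp 2 * ((Real.exp (2 * Module.finrank ℝ U) * Real.exp (2 * Module.finrank ℝ W))
            * (Real.exp (2 * Module.finrank ℝ U) * Real.exp (2 * Module.finrank ℝ W))) := by
            gcongr
            linarith
        _ ≤ _ := by
            simp only [← Real.exp_add]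
            apply Real.exp_le_exp.2
            linarith)
  set e := (L / s + 4608 * s * m) / d ^ 2 with he
  let S : H →ₗ[ℝ] H := (((d : ℝ) + m) / d) • (LinearMap.adjoint R ∘ₗ R)
  let β : H →ₗ[ℝ] H →ₗ[ℝ] ℝ := (innerₗ H).comp (LinearMap.id - S)
  have hβ : ∀ x y, β x y = inner ℝ x y - (((d : ℝ) + m) / d) * inner ℝ (R x) (R y) := by
    intro x y
    simp [β, S, LinearMap.adjoint_inner_left]
  refine ⟨S, ?_, ?_⟩
  · have h1 : LinearMap.range S ≤ LinearMap.range (LinearMap.adjoint R) := by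
      rintro _ ⟨x, rfl⟩
      exact ⟨(((d : ℝ) + m) / d) • R x, by simp [S]⟩
    refine (Submodule.finrank_mono h1).trans ((LinearMap.finrank_range_le _).trans ?_)
    simp
  have h0 : ∀ u ∈ FU, ∀ w ∈ FW, ∀ u' ∈ FU, ∀ w' ∈ FW,
      |β (pr u w) (pr u' w')| ≤ 2 * (d + m) * e := by
    intro u hu w hw u' hu' w' hw'
    have k := fun b : Bool => hR (((u, w), (u', w')), b) (by simp [hu, hw, hu', hw'])
    have k1 := k true
    have k2 := k false
    set x := pr u w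
    set y := pr u' w'
    simp only [z, sg, if_true, one_smul, Bool.false_eq_true, if_false, neg_smul, map_smul,
      map_add, norm_smul, ← sub_eq_add_neg, map_sub] at k1 k2
    change |(‖(1 / 2 : ℝ)‖ * ‖R x + R y‖) ^ 2 / d - (‖(1 / 2 : ℝ)‖ * ‖x + y‖) ^ 2 / (d + m)| ≤ e
      at k1
    change |(‖(1 / 2 : ℝ)‖ * ‖R x - R y‖) ^ 2 / d - (‖(1 / 2 : ℝ)‖ * ‖x - y‖) ^ 2 / (d + m)| ≤ e
      at k2
    rw [mul_pow, mul_pow, norm_add_sq_real, norm_add_sq_real] at k1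
    rw [mul_pow, mul_pow, norm_sub_sq_real, norm_sub_sq_real] at k2
    have h12 : ‖(1 / 2 : ℝ)‖ ^ 2 = 1 / 4 := by norm_num
    rw [h12] at k1 k2
    have hD : (0 : ℝ) < d + m := by positivity
    have : β x y = (d + m) * (
        (1 / 4 * (‖R x‖ ^ 2 - 2 * inner ℝ (R x) (R y) + ‖R y‖ ^ 2) / d
          - 1 / 4 * (‖x‖ ^ 2 - 2 * inner ℝ x y + ‖y‖ ^ 2) / (d + m))
        - (1 / 4 * (‖R x‖ ^ 2 + 2 * inner ℝ (R x) (R y) + ‖R y‖ ^ 2) / d
          - 1 / 4 * (‖x‖ ^ 2 + 2 * inner ℝ x y + ‖y‖ ^ 2) / (d + m))) := by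
      rw [hβ]
      field_simp
      ring
    rw [this, abs_mul, abs_of_pos hD]
    have h5 := (abs_sub _ _).trans (add_le_add k2 k1)
    nlinarith
  have h1 : ∀ u ∈ FU, ∀ w ∈ FW, ∀ u' ∈ FU, ∀ w',
      |β (pr u w) (pr u' w')| ≤ 2 * (2 * (d + m) * e) * ‖w'‖ := fun u hu w hw u' hu' =>
    hW3 (β (pr u w) ∘ₗ pr u') _ (fun w' hw' => h0 u hu w hw u' hu' w' hw')
  have h2 : ∀ u ∈ FU, ∀ w ∈ FW, ∀ w' u',
      |β (pr u w) (pr u' w')| ≤ 2 * (2 * (2 * (d + m) * e) * ‖w'‖) * ‖u'‖ := fun u hu w hw w' =>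
    hU3 (β (pr u w) ∘ₗ pr.flip w') _ (fun u' hu' => h1 u hu w hw u' hu' w')
  have h3 : ∀ u ∈ FU, ∀ w' u' w, |β (pr u w) (pr u' w')|
      ≤ 2 * (2 * (2 * (2 * (d + m) * e) * ‖w'‖) * ‖u'‖) * ‖w‖ := fun u hu w' u' =>
    hW3 (β.flip (pr u' w') ∘ₗ pr u) _ (fun w hw => h2 u hu w hw w' u')
  have h4 : ∀ w' u' w u, |β (pr u w) (pr u' w')|
      ≤ 2 * (2 * (2 * (2 * (2 * (d + m) * e) * ‖w'‖) * ‖u'‖) * ‖w‖) * ‖u‖ := fun w' u' w =>
    hU3 (β.flip (pr u' w') ∘ₗ pr.flip w) _ (fun u hu => h3 u hu w' u' w)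
  intro u w u' w'
  have := h4 w' u' w u
  have e1 : β (pr u w) (pr u' w') = inner ℝ (pr u w - S (pr u w)) (pr u' w') := by
    simp [β, inner_sub_left]
  rw [e1] at this
  refine this.trans (le_of_eq ?_)
  ring

end Pool.Agent.H952Z.Sch
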