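import Mathlib

/-! Derandomised construction of a low rank map which is nearly isometric on a finite set. -/

set_option autoImplicit false

namespace Pool.Agent.H952Z.Sch

open Finset

/-- the sign attached to a Boolean -/
def sg (b : Bool) : ℝ := if b then 1 else -1

lemma sg_sq (b : Bool) : sg b * sg b = 1 := by cases b <;> simp [sg]

lemma sg_not (b : Bool) : sg (!b) = - sg b := by cases b <;> simp [sg]

lemma abs_sg (b : Bool) : |sg b| = 1 := by cases b <;> simp [sg]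

/-- signed sum -/
def X {n : ℕ} (a : Fin n → ℝ) (e : Fin n → Bool) : ℝ := ∑ j, sg (e j) * a j

lemma card_signs (n : ℕ) : ((Finset.univ : Finset (Fin n → Bool)).card : ℝ) = 2 ^ n := by
  simp

lemma sum_exp_X {n : ℕ} (a : Fin n → ℝ) (s : ℝ) :
    ∑ e : Fin n → Bool, Real.exp (s * X a e) ≤ 2 ^ n * Real.exp (s ^ 2 / 2 * ∑ j, a j ^ 2) := by
  have h1 : ∀ e : Fin n → Bool, Real.exp (s * X a e) = ∏ j, Real.exp (s * (sg (e j) * a j)) := by
    intro e
    rw [X, Finset.mul_sum, Real.exp_sum]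
  simp_rw [h1]
  have h2 := Finset.prod_univ_sum (fun _ : Fin n => (Finset.univ : Finset Bool))
    (fun j b => Real.exp (s * (sg b * a j)))
  rw [Fintype.piFinset_univ] at h2
  rw [← h2, Finset.mul_sum, Real.exp_sum]
  have h3 : (2 : ℝ) ^ n = ∏ _j : Fin n, (2 : ℝ) := by simp
  rw [h3, ← Finset.prod_mul_distrib]
  apply Finset.prod_le_prod
  · intro j _
    positivity
  · intro j _
    have := Real.cosh_le_exp_half_sq (s * a j)
    rw [Real.cosh_eq] at this
    simp only [Fintype.univ_bool, Finset.mem_singleton, Bool.true_eq_false, not_false_eq_true,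
      Finset.sum_insert, Finset.sum_singleton, sg, if_true, Bool.false_eq_true, if_false]
    have e1 : s * (1 * a j) = s * a j := by ring
    have e2 : s * (-1 * a j) = -(s * a j) := by ring
    have e3 : s ^ 2 / 2 * a j ^ 2 = (s * a j) ^ 2 / 2 := by ring
    rw [e1, e2, e3]
    linarith

lemma sum_sg_sg {n : ℕ} (i j : Fin n) (h : i ≠ j) :
    ∑ e : Fin n → Bool, sg (e i) * sg (e j) = 0 := by
  let f : (Fin n → Bool) → (Fin n → Bool) := fun e => Function.update e i (!(e i))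
  have hf : Function.Involutive f := by
    intro e
    ext l
    by_cases hl : l = i
    · subst hl; simp [f]
    · simp [f, Function.update_of_ne hl]
  have h1 : ∑ e : Fin n → Bool, sg (e i) * sg (e j)
      = ∑ e : Fin n → Bool, sg (f e i) * sg (f e j) :=
    (Equiv.sum_comp hf.toPerm (fun e => sg (e i) * sg (e j))).symm
  have h2 : ∀ e : Fin n → Bool, sg (f e i) * sg (f e j) = -(sg (e i) * sg (e j)) := by
    intro e
    simp only [f, Function.update_self, Function.update_of_ne h.symm, sg_not]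
    ring
  simp_rw [h2, Finset.sum_neg_distrib] at h1
  linarith

lemma sum_X_sq {n : ℕ} (a : Fin n → ℝ) :
    ∑ e : Fin n → Bool, X a e ^ 2 = 2 ^ n * ∑ j, a j ^ 2 := by
  have h1 : ∀ e : Fin n → Bool,
      X a e ^ 2 = ∑ i, ∑ j, (a i * a j) * (sg (e i) * sg (e j)) := by
    intro e
    rw [X, sq, Finset.sum_mul_sum]
    refine Finset.sum_congr rfl fun i _ => Finset.sum_congr rfl fun j _ => by ring
  simp_rw [h1]
  rw [Finset.sum_comm, Finset.mul_sum]
  refine Finset.sum_congr rfl fun i _ => ?_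
  rw [Finset.sum_comm, Finset.sum_eq_single i]
  · simp_rw [sg_sq]
    simp
    ring
  · intro j _ hj
    rw [← Finset.mul_sum, sum_sg_sg i j hj.symm, mul_zero]
  · simp

lemma exp_sq_le (y : ℝ) (J : ℕ) (hJ : |y| < J) :
    Real.exp (y ^ 2 / 4) ≤ Real.exp 1 * ∑ j ∈ Finset.range J,
      Real.exp (-(j : ℝ) ^ 2) * (Real.exp (j * y) + Real.exp (-(j : ℝ) * y)) := by
  set j0 : ℕ := ⌊|y| / 2⌋₊ with hj0
  have h0 : 0 ≤ |y| / 2 := by positivity
  have h1 : (j0 : ℝ) ≤ |y| / 2 := Nat.floor_le h0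
  have h2 : |y| / 2 < j0 + 1 := Nat.lt_floor_add_one _
  have hmem : j0 ∈ Finset.range J := by
    rw [Finset.mem_range]
    have : (j0 : ℝ) < J := by linarith [abs_nonneg y]
    exact_mod_cast this
  have h3 := Finset.single_le_sum (f := fun j : ℕ =>
      Real.exp (-(j : ℝ) ^ 2) * (Real.exp (j * y) + Real.exp (-(j : ℝ) * y)))
      (fun j _ => by positivity) hmem
  have h4 : Real.exp (j0 * |y|) ≤ Real.exp (j0 * y) + Real.exp (-(j0 : ℝ) * y) := by
    rcases abs_cases y with h | h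
    · rw [h.1]; linarith [Real.exp_pos (-(j0 : ℝ) * y)]
    · rw [h.1]
      have : (j0 : ℝ) * -y = -(j0 : ℝ) * y := by ring
      rw [this]; linarith [Real.exp_pos ((j0 : ℝ) * y)]
  calc Real.exp (y ^ 2 / 4) ≤ Real.exp (1 + (-(j0 : ℝ) ^ 2 + j0 * |y|)) := by
        apply Real.exp_le_exp.2
        have : y ^ 2 = |y| ^ 2 := (sq_abs y).symm
        rw [this]
        nlinarith
    _ = Real.exp 1 * (Real.exp (-(j0 : ℝ) ^ 2) * Real.exp (j0 * |y|)) := by
        rw [Real.exp_add, Real.exp_add]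
    _ ≤ Real.exp 1 * (Real.exp (-(j0 : ℝ) ^ 2) *
          (Real.exp (j0 * y) + Real.exp (-(j0 : ℝ) * y))) := by gcongr
    _ ≤ _ := by gcongr

lemma geom_bound (J : ℕ) : ∑ j ∈ Finset.range J, Real.exp (-(j : ℝ) ^ 2 / 2) ≤ 3 := by
  have h1 : Real.exp (-(1 / 2 : ℝ)) ≤ 2 / 3 := by
    have : (3 / 2 : ℝ) ≤ Real.exp (1 / 2) := by linarith [Real.add_one_le_exp (1 / 2 : ℝ)]
    rw [Real.exp_neg, inv_le_comm₀ (Real.exp_pos _) (by norm_num)]
    linarith
  have h2 : ∀ j : ℕ, Real.exp (-(j : ℝ) ^ 2 / 2) ≤ (2 / 3 : ℝ) ^ j := by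
    intro j
    calc Real.exp (-(j : ℝ) ^ 2 / 2) ≤ Real.exp (j * (-(1 / 2 : ℝ))) := by
          apply Real.exp_le_exp.2
          have : (j : ℝ) ≤ (j : ℝ) ^ 2 := by
            have : j ≤ j ^ 2 := Nat.le_self_pow (by norm_num) j
            exact_mod_cast this
          linarith
      _ = Real.exp (-(1 / 2 : ℝ)) ^ j := by rw [Real.exp_nat_mul]
      _ ≤ _ := by gcongr
  calc _ ≤ ∑ j ∈ Finset.range J, (2 / 3 : ℝ) ^ j := Finset.sum_le_sum fun j _ => h2 j
    _ ≤ ∑' j : ℕ, (2 / 3 : ℝ) ^ j :=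
        (summable_geometric_of_lt_one (by norm_num) (by norm_num)).sum_le_tsum _
          (fun j _ => by positivity)
    _ = 3 := by rw [tsum_geometric_of_lt_one (by norm_num) (by norm_num)]; norm_num

lemma sum_exp_sq {n : ℕ} (a : Fin n → ℝ) (ha : ∑ j, a j ^ 2 ≤ 1) :
    ∑ e : Fin n → Bool, Real.exp (X a e ^ 2 / 4) ≤ 2 ^ n * 18 := by
  obtain ⟨J, hJ⟩ : ∃ J : ℕ, ∀ e : Fin n → Bool, |X a e| < J := by
    obtain ⟨J, hJ⟩ := exists_nat_gt (∑ j, |a j|)
    refine ⟨J, fun e => lt_of_le_of_lt ?_ hJ⟩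
    refine (Finset.abs_sum_le_sum_abs _ _).trans (le_of_eq ?_)
    refine Finset.sum_congr rfl fun j _ => ?_
    rw [abs_mul, abs_sg, one_mul]
  have key : ∀ s : ℝ, ∑ e : Fin n → Bool, Real.exp (s * X a e) ≤ 2 ^ n * Real.exp (s ^ 2 / 2) := by
    intro s
    refine (sum_exp_X a s).trans ?_
    gcongr
    have : 0 ≤ s ^ 2 / 2 := by positivity
    nlinarith
  calc _ ≤ ∑ e : Fin n → Bool, Real.exp 1 * ∑ j ∈ Finset.range J,
        Real.exp (-(j : ℝ) ^ 2) * (Real.exp (j * X a e) + Real.exp (-(j : ℝ) * X a e)) :=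
        Finset.sum_le_sum fun e _ => exp_sq_le _ J (hJ e)
    _ = Real.exp 1 * ∑ j ∈ Finset.range J, Real.exp (-(j : ℝ) ^ 2) *
          (∑ e : Fin n → Bool, Real.exp (j * X a e) +
            ∑ e : Fin n → Bool, Real.exp (-(j : ℝ) * X a e)) := by
        rw [← Finset.mul_sum, Finset.sum_comm]
        congr 1
        refine Finset.sum_congr rfl fun j _ => ?_
        rw [← Finset.mul_sum, Finset.sum_add_distrib]
    _ ≤ Real.exp 1 * ∑ j ∈ Finset.range J, (2 ^ n * 2) * Real.exp (-(j : ℝ) ^ 2 / 2) := by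
        refine mul_le_mul_of_nonneg_left (Finset.sum_le_sum fun j _ => ?_) (Real.exp_pos _).le
        have h1 := key j
        have h2 := key (-(j : ℝ))
        rw [neg_sq] at h2
        have h3 : Real.exp (-(j : ℝ) ^ 2 / 2)
            = Real.exp (-(j : ℝ) ^ 2) * Real.exp ((j : ℝ) ^ 2 / 2) := by
          rw [← Real.exp_add]; congr 1; ring
        rw [h3]
        have h4 := Real.exp_pos (-(j : ℝ) ^ 2)
        nlinarith
    _ ≤ 3 * ((2 ^ n * 2) * 3) := by
        rw [← Finset.mul_sum]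
        have := geom_bound J
        have h5 : Real.exp 1 ≤ 3 := by linarith [Real.exp_one_lt_d9]
        gcongr
    _ = _ := by ring

lemma exp_le_quad (u : ℝ) : Real.exp u ≤ 1 + u + u ^ 2 * Real.exp |u| := by
  have h1 : Real.exp u * (1 - u) ≤ 1 := by
    have := Real.add_one_le_exp (-u)
    have h2 : Real.exp u * Real.exp (-u) = 1 := by rw [← Real.exp_add]; simp
    have h3 := Real.exp_pos u
    nlinarith
  rcases le_total 0 u with h | h
  · rw [abs_of_nonneg h]
    have h3 := Real.exp_pos u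
    nlinarith
  · have h3 : 1 ≤ Real.exp |u| := Real.one_le_exp (abs_nonneg u)
    have h4 := Real.add_one_le_exp u
    have h5 := Real.exp_pos u
    have h6 : Real.exp u ≤ 1 + u + u ^ 2 := by
      have : Real.exp u * (1 - u) ≤ (1 + u + u ^ 2) * (1 - u) := by
        have : (1 + u + u ^ 2) * (1 - u) = 1 - u ^ 3 := by ring
        rw [this]
        have : u ^ 3 ≤ 0 := by nlinarith [sq_nonneg u]
        linarith
      exact le_of_mul_le_mul_right this (by linarith)
    nlinarith [sq_nonneg u]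

lemma mgf_sq {n : ℕ} (a : Fin n → ℝ) (ha : ∑ j, a j ^ 2 ≤ 1) (t : ℝ) (ht : |t| ≤ 1 / 8) :
    ∑ e : Fin n → Bool, Real.exp (t * (X a e ^ 2 - ∑ j, a j ^ 2))
      ≤ 2 ^ n * Real.exp (4608 * t ^ 2) := by
  set r := ∑ j, a j ^ 2 with hr
  have hr0 : 0 ≤ r := Finset.sum_nonneg fun j _ => sq_nonneg _
  have h1 : ∀ e : Fin n → Bool, Real.exp (t * (X a e ^ 2 - r))
      ≤ 1 + t * (X a e ^ 2 - r) + t ^ 2 * 256 * Real.exp (X a e ^ 2 / 4) := by
    intro e
    refine (exp_le_quad _).trans ?_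
    set y := X a e ^ 2 with hy
    have hy0 : 0 ≤ y := sq_nonneg _
    have h2 : |y - r| ≤ y + 1 := by rw [abs_le]; constructor <;> linarith
    have h3 : |t * (y - r)| ≤ (y + 1) / 8 := by
      rw [abs_mul]
      calc |t| * |y - r| ≤ (1 / 8) * (y + 1) := by gcongr
        _ = _ := by ring
    have h4 : (y - r) ^ 2 ≤ 128 * Real.exp ((y + 1) / 8) := by
      have h5 : (y - r) ^ 2 ≤ (y + 1) ^ 2 := by
        rw [← sq_abs (y - r)]; gcongr
      have h6 := Real.quadratic_le_exp_of_nonneg (x := (y + 1) / 8) (by positivity)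
      nlinarith
    have h7 : Real.exp (1 / 4) ≤ 2 := by
      have : Real.exp (1 / 4) ≤ Real.exp (Real.log 2) := by
        apply Real.exp_le_exp.2; linarith [Real.log_two_gt_d9]
      rwa [Real.exp_log (by norm_num)] at this
    have h8 : (t * (y - r)) ^ 2 * Real.exp |t * (y - r)| ≤ t ^ 2 * 256 * Real.exp (y / 4) := by
      calc (t * (y - r)) ^ 2 * Real.exp |t * (y - r)|
          = t ^ 2 * ((y - r) ^ 2 * Real.exp |t * (y - r)|) := by ring
        _ ≤ t ^ 2 * ((128 * Real.exp ((y + 1) / 8)) * Real.exp ((y + 1) / 8)) := by gcongr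
        _ = t ^ 2 * (128 * (Real.exp (1 / 4) * Real.exp (y / 4))) := by
            rw [mul_assoc 128, ← Real.exp_add, ← Real.exp_add]; congr 3; ring
        _ ≤ t ^ 2 * (128 * (2 * Real.exp (y / 4))) := by gcongr
        _ = _ := by ring
    linarith
  calc _ ≤ ∑ e : Fin n → Bool,
        (1 + t * (X a e ^ 2 - r) + t ^ 2 * 256 * Real.exp (X a e ^ 2 / 4)) :=
        Finset.sum_le_sum fun e _ => h1 e
    _ = 2 ^ n + t * (∑ e : Fin n → Bool, X a e ^ 2 - 2 ^ n * r)
          + t ^ 2 * 256 * ∑ e : Fin n → Bool, Real.exp (X a e ^ 2 / 4) := by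
        rw [Finset.sum_add_distrib, Finset.sum_add_distrib, ← Finset.mul_sum, ← Finset.mul_sum,
          Finset.sum_sub_distrib]
        simp
    _ ≤ 2 ^ n + 0 + t ^ 2 * 256 * (2 ^ n * 18) := by
        rw [sum_X_sq, sub_self, mul_zero]
        gcongr
        exact sum_exp_sq a ha
    _ = 2 ^ n * (4608 * t ^ 2 + 1) := by ring
    _ ≤ _ := by gcongr; exact Real.add_one_le_exp _

lemma exists_hyper {E : Type} [NormedAddCommGroup E] [InnerProductSpace ℝ E]
    [FiniteDimensional ℝ E] {d : ℕ} (hE : Module.finrank ℝ E = d + 1) (u : E) (hu : ‖u‖ = 1) :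
    ∃ R : E →ₗ[ℝ] EuclideanSpace ℝ (Fin d), ∀ z, ‖R z‖ ^ 2 = ‖z‖ ^ 2 - (inner ℝ u z) ^ 2 := by
  have : Fact (Module.finrank ℝ E = d + 1) := ⟨hE⟩
  have hu0 : u ≠ 0 := by rintro rfl; simp at hu
  let b := OrthonormalBasis.fromOrthogonalSpanSingleton (𝕜 := ℝ) d hu0
  refine ⟨b.repr.toLinearEquiv.toLinearMap ∘ₗ
    ((ℝ ∙ u)ᗮ.orthogonalProjectionOnto : E →L[ℝ] _).toLinearMap, fun z => ?_⟩
  have h1 := Submodule.norm_sq_eq_add_norm_sq_projection z (ℝ ∙ u)
  have h2 : ‖(ℝ ∙ u).orthogonalProjectionOnto z‖ ^ 2 = (inner ℝ u z) ^ 2 := by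
    have := Submodule.starProjection_unit_singleton ℝ hu z
    rw [Submodule.coe_norm, Submodule.coe_orthogonalProjectionOnto_apply, this, norm_smul, hu]
    simp
  simp only [LinearMap.comp_apply, LinearEquiv.coe_coe, LinearIsometryEquiv.coe_toLinearEquiv,
    LinearIsometryEquiv.norm_map, ContinuousLinearMap.coe_coe]
  linarith

lemma step {E : Type} [NormedAddCommGroup E] [InnerProductSpace ℝ E]
    [FiniteDimensional ℝ E] {d : ℕ} (hd : 1 ≤ d) (hE : Module.finrank ℝ E = d + 1)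
    {ι : Type} (F : Finset ι) (z : ι → E) (hz : ∀ a ∈ F, ‖z a‖ ≤ 1) (w : ι → ℝ)
    (hw : ∀ a ∈ F, 0 ≤ w a) (t : ι → ℝ) (s : ℝ) (hs : s ≤ 1 / 8)
    (ht : ∀ a ∈ F, |t a| ≤ s * d ^ 2) :
    ∃ R : E →ₗ[ℝ] EuclideanSpace ℝ (Fin d), (∀ x, ‖R x‖ ≤ ‖x‖) ∧
      ∑ a ∈ F, w a * Real.exp (t a * (‖R (z a)‖ ^ 2 / d - ‖z a‖ ^ 2 / (d + 1)))
        ≤ (∑ a ∈ F, w a) * Real.exp (4608 * s ^ 2) := by
  let b : OrthonormalBasis (Fin (d + 1)) ℝ E := (stdOrthonormalBasis ℝ E).reindex (finCongr hE)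
  have hd' : (1 : ℝ) ≤ d := by exact_mod_cast hd
  set c : ℝ := (Real.sqrt (d + 1))⁻¹ with hc
  have hc2 : c ^ 2 = 1 / (d + 1) := by
    rw [hc, inv_pow, Real.sq_sqrt (by positivity), one_div]
  let u : (Fin (d + 1) → Bool) → E := fun e => ∑ j, (c * sg (e j)) • b j
  have hinner : ∀ e x, inner ℝ (u e) x = c * X (fun j => inner ℝ (b j) x) e := by
    intro e x
    simp only [u, sum_inner, inner_smul_left, X, Finset.mul_sum]
    refine Finset.sum_congr rfl fun j _ => ?_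
    simp [mul_assoc]
  have hu : ∀ e, ‖u e‖ = 1 := by
    intro e
    have h1 : ‖u e‖ ^ 2 = 1 := by
      rw [← b.sum_sq_inner_right]
      have : ∀ j, (inner ℝ (b j) (u e)) ^ 2 = 1 / ((d : ℝ) + 1) := by
        intro j
        rw [b.orthonormal.inner_right_fintype (fun j => c * sg (e j)) j, mul_pow, hc2, sq,
          sg_sq, mul_one]
      simp_rw [this]
      simp
      field_simp
    have := norm_nonneg (u e)
    nlinarith
  choose R hR using fun e => exists_hyper hE (u e) (hu e)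
  have hform : ∀ e x, ‖R e x‖ ^ 2 / d - ‖x‖ ^ 2 / (d + 1) =
      -(1 / (d * (d + 1))) * (X (fun j => inner ℝ (b j) x) e ^ 2
        - ∑ j, (inner ℝ (b j) x) ^ 2) := by
    intro e x
    rw [hR, hinner, mul_pow, hc2, b.sum_sq_inner_right]
    field_simp
    ring
  have hsum : ∑ e : Fin (d + 1) → Bool,
      ∑ a ∈ F, w a * Real.exp (t a * (‖R e (z a)‖ ^ 2 / d - ‖z a‖ ^ 2 / (d + 1)))
      ≤ ∑ _e : Fin (d + 1) → Bool, (∑ a ∈ F, w a) * Real.exp (4608 * s ^ 2) := by
    rw [Finset.sum_comm, Finset.sum_const, nsmul_eq_mul, card_signs, Finset.sum_mul,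
      Finset.mul_sum]
    refine Finset.sum_le_sum fun a ha => ?_
    rw [← Finset.mul_sum]
    simp_rw [hform, ← mul_assoc]
    have h1 : |t a * -(1 / ((d : ℝ) * (d + 1)))| ≤ s := by
      rw [abs_mul, abs_neg, abs_of_pos (a := 1 / ((d : ℝ) * (d + 1))) (by positivity),
        mul_one_div, div_le_iff₀ (by positivity)]
      have hs0 : 0 ≤ s := by
        have := (abs_nonneg _).trans (ht a ha)
        by_contra h
        push Not at h
        have : s * (d : ℝ) ^ 2 < 0 := mul_neg_of_neg_of_pos h (by positivity)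
        linarith
      refine (ht a ha).trans ?_
      gcongr
      nlinarith
    have h2 := mgf_sq (fun j => inner ℝ (b j) (z a)) (by
      rw [b.sum_sq_inner_right]
      have := hz a ha
      have := norm_nonneg (z a)
      nlinarith) _ (h1.trans hs)
    have h3 : Real.exp (4608 * (t a * -(1 / ((d : ℝ) * (d + 1)))) ^ 2)
        ≤ Real.exp (4608 * s ^ 2) := by
      apply Real.exp_le_exp.2
      rw [← sq_abs (t a * _)]
      gcongr
    have h4 := hw a ha
    calc _ ≤ w a * (2 ^ (d + 1) * Real.exp (4608 * s ^ 2)) := by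
          gcongr
          exact h2.trans (by gcongr)
      _ = _ := by ring
  obtain ⟨e, -, he⟩ := Finset.exists_le_of_sum_le Finset.univ_nonempty hsum
  refine ⟨R e, fun x => ?_, he⟩
  have h1 := hR e x
  have h2 := sq_nonneg (inner ℝ (u e) x)
  exact le_of_sq_le_sq (by linarith) (norm_nonneg _)

lemma iter {d : ℕ} (hd : 1 ≤ d) {ι : Type} (F : Finset ι) (t : ι → ℝ) (s : ℝ) (hs0 : 0 ≤ s)
    (hs : s ≤ 1 / 8) (ht : ∀ a ∈ F, |t a| ≤ s * d ^ 2) (m : ℕ) :
    ∀ (E : Type) [NormedAddCommGroup E] [InnerProductSpace ℝ E] [FiniteDimensional ℝ E]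
      (_ : Module.finrank ℝ E = d + m) (z : ι → E) (_ : ∀ a ∈ F, ‖z a‖ ≤ 1) (w : ι → ℝ)
      (_ : ∀ a ∈ F, 0 ≤ w a),
      ∃ R : E →ₗ[ℝ] EuclideanSpace ℝ (Fin d),
      ∑ a ∈ F, w a * Real.exp (t a * (‖R (z a)‖ ^ 2 / d - ‖z a‖ ^ 2 / (d + m)))
        ≤ (∑ a ∈ F, w a) * Real.exp (4608 * s ^ 2 * m) := by
  induction m with
  | zero =>
    intro E _ _ _ hE z hz w hw
    let b : OrthonormalBasis (Fin d) ℝ E := (stdOrthonormalBasis ℝ E).reindex (finCongr hE)
    refine ⟨b.repr.toLinearEquiv.toLinearMap, ?_⟩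
    simp
  | succ m ih =>
    intro E _ _ _ hE z hz w hw
    obtain ⟨R1, hR1, h1⟩ := step (d := d + m) (by omega) hE F z hz w hw t s hs (fun a ha => by
      refine (ht a ha).trans ?_
      gcongr
      omega)
    obtain ⟨R2, h2⟩ := ih (EuclideanSpace ℝ (Fin (d + m))) (by simp) (fun a => R1 (z a))
      (fun a ha => (hR1 _).trans (hz a ha))
      (fun a => w a * Real.exp (t a * (‖R1 (z a)‖ ^ 2 / (d + m : ℕ)
        - ‖z a‖ ^ 2 / ((d + m : ℕ) + 1))))
      (fun a ha => mul_nonneg (hw a ha) (Real.exp_pos _).le)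
    refine ⟨R2 ∘ₗ R1, ?_⟩
    calc _ = ∑ a ∈ F, (w a * Real.exp (t a * (‖R1 (z a)‖ ^ 2 / (d + m : ℕ)
              - ‖z a‖ ^ 2 / ((d + m : ℕ) + 1)))) *
            Real.exp (t a * (‖R2 (R1 (z a))‖ ^ 2 / d - ‖R1 (z a)‖ ^ 2 / (d + m))) := by
          refine Finset.sum_congr rfl fun a _ => ?_
          rw [mul_assoc, ← Real.exp_add]
          congr 2
          push_cast
          rw [Function.comp_apply]
          ring
      _ ≤ _ := h2
      _ ≤ ((∑ a ∈ F, w a) * Real.exp (4608 * s ^ 2)) * Real.exp (4608 * s ^ 2 * m) := by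
          gcongr
      _ = _ := by
          rw [mul_assoc, ← Real.exp_add]
          congr 2
          push_cast
          ring

/-- A map to dimension `d` which is nearly a multiple of an isometry on a finite set. -/
theorem near_iso {d m : ℕ} (hd : 1 ≤ d) {E : Type} [NormedAddCommGroup E] [InnerProductSpace ℝ E]
    [FiniteDimensional ℝ E] (hE : Module.finrank ℝ E = d + m) {ι : Type} (F : Finset ι)
    (z : ι → E) (hz : ∀ a ∈ F, ‖z a‖ ≤ 1) (s : ℝ) (hs0 : 0 < s) (hs : s ≤ 1 / 8) (L : ℝ)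
    (hL : 2 * (F.card : ℝ) ≤ Real.exp L) :
    ∃ R : E →ₗ[ℝ] EuclideanSpace ℝ (Fin d), ∀ a ∈ F,
      |‖R (z a)‖ ^ 2 / d - ‖z a‖ ^ 2 / (d + m)| ≤ (L / s + 4608 * s * m) / d ^ 2 := by
  have hd' : (1 : ℝ) ≤ d := by exact_mod_cast hd
  obtain ⟨R, hR⟩ := iter hd (F ×ˢ (Finset.univ : Finset Bool))
    (fun a => sg a.2 * (s * d ^ 2)) s hs0.le hs (fun a _ => by
      rw [abs_mul, abs_sg, one_mul, abs_of_pos (by positivity)]) m E hE (fun a => z a.1)
    (fun a ha => hz a.1 (Finset.mem_product.1 ha).1) (fun _ => 1) (fun _ _ => zero_le_one)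
  refine ⟨R, fun a ha => ?_⟩
  set v := ‖R (z a)‖ ^ 2 / d - ‖z a‖ ^ 2 / (d + m) with hv
  have key : ∀ b : Bool, sg b * v ≤ (L / s + 4608 * s * m) / d ^ 2 := by
    intro b
    have h1 := Finset.single_le_sum (f := fun a : ι × Bool => 1 * Real.exp
      ((sg a.2 * (s * d ^ 2)) * (‖R (z a.1)‖ ^ 2 / d - ‖z a.1‖ ^ 2 / (d + m))))
      (fun _ _ => by positivity) (Finset.mem_product.2 ⟨ha, Finset.mem_univ b⟩ :
        (a, b) ∈ F ×ˢ (Finset.univ : Finset Bool))
    have h2 := h1.trans hR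
    simp only [one_mul, Finset.sum_const, Finset.card_product, Finset.card_univ,
      Fintype.card_bool, nsmul_eq_mul, mul_one, Nat.cast_mul, Nat.cast_ofNat] at h2
    have h3 : Real.exp (sg b * (s * d ^ 2) * v) ≤ Real.exp (L + 4608 * s ^ 2 * m) := by
      refine h2.trans ?_
      rw [Real.exp_add]
      gcongr
      linarith
    have h4 := Real.exp_le_exp.1 h3
    rw [le_div_iff₀ (by positivity)]
    have h5 : L / s + 4608 * s * m = (L + 4608 * s ^ 2 * m) / s := by field_simp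
    rw [h5, le_div_iff₀ hs0]
    linarith
  have k1 := key true
  have k2 := key false
  simp only [sg, if_true, one_mul, Bool.false_eq_true, if_false, neg_mul] at k1 k2
  rw [abs_le]
  constructor <;> linarith

end Pool.Agent.H952Z.Sch
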